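import Pool.Agent.H246K3.All3

/-!
# Inserting many knots of several types: uniform counting
-/

set_option autoImplicit false

namespace Pool.Agent.U216.MS.Lab

open Finset Filter Topology KN
open scoped Classical

noncomputable section

open KN.K3YCNT in
/-- one more block, uniformly in the number of blocks and in the blocks -/
theorem cnt {T L B R : ℕ} (hLL : LLat T L R) (hR : 1 ≤ R) :
    ∃ c : ℝ, 0 < c ∧ ∃ n₀ : ℕ, ∀ v : ℕ → List Dir, SmB L B v → ∀ n ≥ n₀, ∀ N : ℕ,
      (N : ℝ) ≤ c * (n : ℝ) ^ (2 / 3 : ℝ) →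
      c * (n : ℝ) ^ (2 / 3 : ℝ) * (VZ T L v N n).card ≤ (VZ T L v (N + 1) n).card := by
  obtain ⟨c, hc, hev⟩ := d_many R hR
  obtain ⟨n₀, hn₀⟩ := eventually_atTop.1 hev
  set r := raZ T L B with hr
  obtain ⟨b, hb⟩ : ∃ b : ℕ, b = (2 * r + 1) ^ 3 := ⟨_, rfl⟩
  have hb1 : 1 ≤ b := by
    rw [hb]
    exact Nat.one_le_pow _ _ (by omega)
  have hb0 : (0 : ℝ) < b := by exact_mod_cast hb1
  obtain ⟨Q, hQ⟩ : ∃ Q : ℕ, Q = 6 * (6 * (3 * 13 ^ 3)) := ⟨_, rfl⟩
  have hQ0 : (0 : ℝ) < Q := by
    rw [hQ]
    norm_num
  refine ⟨min (c / (2 * b)) (c / (2 * Q)), lt_min (by positivity) (by positivity), n₀, ?_⟩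
  intro v hv n hn N hN
  set D := ((List.range N).map (fun i => (blk T (v i)).length - 1)).sum with hD
  set x : ℝ := (n : ℝ) ^ (2 / 3 : ℝ) with hx
  have hx0 : 0 ≤ x := by positivity
  have hn2 : ((N * b : ℕ) : ℝ) ≤ c / 2 * x := by
    have h1 : (N : ℝ) ≤ c / (2 * b) * x :=
      hN.trans (mul_le_mul_of_nonneg_right (min_le_left _ _) hx0)
    push_cast
    calc (N : ℝ) * b ≤ c / (2 * b) * x * b := mul_le_mul_of_nonneg_right h1 hb0.le
      _ = c / 2 * x := by field_simp
  have hC : ∀ W : List Sz, ∃ C : Finset Z3, W ∈ VZ T L v N n →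
      (c / 2 * x ≤ C.card ∧ ∀ x ∈ C, ¬ near 6 x 0 ∧
        (∃ N, Cont R {p | p ∈ path (EZ T v W)} x N) ∧ faZ T v r W x) := by
    intro W
    by_cases hW : W ∈ VZ T L v N n
    swap
    · exact ⟨∅, fun h => absurd h hW⟩
    rw [Y_mem_proof] at hW
    obtain ⟨hW1, hW2, hW3⟩ := hW
    have hlen : (EZ T v W).length = n + D := by
      rw [(e_bas T L B v hv W).2.2.1, hW1, (hW2.map _).sum_eq]
    obtain ⟨C, hC1, hC2⟩ := hn₀ (n + D) (by omega) (EZ T v W) hW3.ext hlen
    refine ⟨C.filter (fun x => faZ T v r W x), fun _ => ⟨?_, ?_⟩⟩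
    · have hbad : (C.filter (fun x => ¬ faZ T v r W x)).card ≤ N * b := by
        have hsub : C.filter (fun x => ¬ faZ T v r W x) ⊆
            (bps T v W).toFinset.biUnion (fun q => box r q) := by
          intro x hx
          rw [mem_filter] at hx
          obtain ⟨-, hx⟩ := hx
          unfold faZ at hx
          push Not at hx
          obtain ⟨A, B', i, d, f, hAB, hx⟩ := hx
          rw [mem_biUnion]
          refine ⟨pos (EZ T v B'), ?_, mem_box.2 hx⟩
          rw [List.mem_toFinset, hAB]
          exact mem_bps T v A B' i d f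
        refine (card_le_card hsub).trans ?_
        refine (card_biUnion_le_card_mul _ _ ((2 * r + 1) ^ 3) (fun q _ => (card_box r q).le)).trans
          ?_
        rw [hb]
        apply Nat.mul_le_mul_right
        refine (List.toFinset_card_le _).trans ?_
        rw [bps_length, hW2.length_eq, List.length_range]
      have hsum := card_filter_add_card_filter_not (s := C) (fun x => faZ T v r W x)
      have hn3 : x ≤ ((n + D : ℕ) : ℝ) ^ (2 / 3 : ℝ) := by
        apply Real.rpow_le_rpow (by positivity) _ (by norm_num)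
        exact_mod_cast Nat.le_add_right _ _
      have hn4 : c * x ≤ C.card :=
        (mul_le_mul_of_nonneg_left hn3 hc.le).trans hC1
      have hb' : ((C.filter (fun x => ¬ faZ T v r W x)).card : ℝ) ≤ ((N * b : ℕ) : ℝ) := by
        exact_mod_cast hbad
      have hs' : ((C.filter (fun x => faZ T v r W x)).card : ℝ) +
          ((C.filter (fun x => ¬ faZ T v r W x)).card : ℝ) = C.card := by
        exact_mod_cast hsum
      linarith
    · intro x hx
      rw [mem_filter] at hx
      exact ⟨(hC2 x hx.1).1, (hC2 x hx.1).2, hx.2⟩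
  choose C hC using hC
  have key := K3YCNT.count Y_mem_proof T_rtc_proof T L v N n C (by
    intro W hW x hx
    obtain ⟨-, h3⟩ := hC W hW
    obtain ⟨h4, ⟨N', h5⟩, h6⟩ := h3 x hx
    exact e_con T L B R v hv hLL W ((Y_mem_proof _ _ _ _ _ _).1 hW).2.2 x N' h5 h4 h6 N)
  have hlow : c / 2 * x * (VZ T L v N n).card ≤
      ((∑ W ∈ VZ T L v N n, (C W).card : ℕ) : ℝ) := by
    push_cast
    rw [mul_comm, ← nsmul_eq_mul]
    exact Finset.card_nsmul_le_sum _ _ _ (fun W hW => (hC W hW).1)
  have key' : ((∑ W ∈ VZ T L v N n, (C W).card : ℕ) : ℝ) ≤ (VZ T L v (N + 1) n).card * Q := by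
    rw [← hQ] at key
    exact_mod_cast key
  have hfin := hlow.trans key'
  have h9 : min (c / (2 * b)) (c / (2 * Q)) * x * (VZ T L v N n).card ≤
      c / (2 * Q) * x * (VZ T L v N n).card := by
    gcongr
    exact min_le_right _ _
  refine h9.trans ?_
  calc c / (2 * Q) * x * (VZ T L v N n).card
      = (c / 2 * x * (VZ T L v N n).card) / Q := by field_simp
    _ ≤ ((VZ T L v (N + 1) n).card * Q) / Q := by gcongr
    _ = (VZ T L v (N + 1) n).card := by field_simp

/-- `N` blocks -/
theorem iter {T L B R : ℕ} (hLL : LLat T L R) (hR : 1 ≤ R) :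
    ∃ c : ℝ, 0 < c ∧ ∃ n₀ : ℕ, ∀ v : ℕ → List Dir, SmB L B v → ∀ n ≥ n₀, ∀ N : ℕ,
      (N : ℝ) ≤ c * (n : ℝ) ^ (2 / 3 : ℝ) →
      (c * (n : ℝ) ^ (2 / 3 : ℝ)) ^ N * a U n ≤ (VZ T L v N n).card := by
  obtain ⟨c, hc, n₀, h⟩ := cnt (B := B) hLL hR
  refine ⟨c, hc, n₀, fun v hv n hn N => ?_⟩
  induction N with
  | zero =>
    intro _
    rw [e_zero T L v n]
    simp
  | succ N ih =>
    intro hN
    have hx0 : 0 ≤ c * (n : ℝ) ^ (2 / 3 : ℝ) := by positivity
    have hN' : (N : ℝ) ≤ c * (n : ℝ) ^ (2 / 3 : ℝ) := by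
      refine le_trans ?_ hN
      push_cast
      linarith
    have h1 := ih hN'
    have h2 := h v hv n hn N hN'
    rw [pow_succ]
    calc (c * (n : ℝ) ^ (2 / 3 : ℝ)) ^ N * (c * (n : ℝ) ^ (2 / 3 : ℝ)) * a U n
        = (c * (n : ℝ) ^ (2 / 3 : ℝ)) * ((c * (n : ℝ) ^ (2 / 3 : ℝ)) ^ N * a U n) := by ring
      _ ≤ (c * (n : ℝ) ^ (2 / 3 : ℝ)) * (VZ T L v N n).card :=
          mul_le_mul_of_nonneg_left h1 hx0
      _ ≤ (VZ T L v (N + 1) n).card := h2

/-! ## Multiplicity -/

open KN.K3YMUL in
/-- positions of the blocks, without the types -/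
def Sq (T : ℕ) (v : ℕ → List Dir) (o : ℕ) (W : List Sz) : Finset (ℕ × Dir × Dir) :=
  (Sp T v o W).image (fun q => (q.1, q.2.2.1, q.2.2.2))

open KN.K3YMUL in
theorem Sq_lt (T : ℕ) (v : ℕ → List Dir) (o : ℕ) (f : Dir) (W : List Sz) :
    Sq T v o (.lt f :: W) = Sq T v (o + 1) W := rfl

open KN.K3YMUL in
theorem Sq_bl (T : ℕ) (v : ℕ → List Dir) (o i : ℕ) (d f : Dir) (W : List Sz) :
    Sq T v o (.bl i d f :: W) = insert (o, d, f) (Sq T v (o + (blk T (v i)).length) W) := by
  unfold Sq
  rw [Sp, Finset.image_insert]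

open KN.K3YMUL in
theorem Sq_ge (T : ℕ) (v : ℕ → List Dir) (W : List Sz) (o : ℕ) (q : ℕ × Dir × Dir)
    (h : q ∈ Sq T v o W) : o ≤ q.1 := by
  unfold Sq at h
  rw [Finset.mem_image] at h
  obtain ⟨q', h1, rfl⟩ := h
  exact Sp_ge T v W o q' h1

open KN.K3YMUL in
theorem inj2 (T : ℕ) (v : ℕ → List Dir) : ∀ (W W' : List Sz) (o : ℕ), EZ T v W = EZ T v W' →
    Sq T v o W = Sq T v o W' → lab W = lab W' → W = W' := by
  have hb := fun i => blk_pos T (v i)
  intro W
  induction W with
  | nil =>
    intro W' o h1 _ _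
    cases W' with
    | nil => rfl
    | cons s W' =>
      exfalso
      rw [EZ_nil, EZ_cons] at h1
      have h3 := congrArg List.length h1
      rw [List.length_append] at h3
      cases s with
      | lt e => simp only [szw, List.length_cons, List.length_nil] at h3; omega
      | bl i d f =>
        have := hb i
        simp only [szw, List.length_map, List.length_nil] at h3; omega
  | cons s W ih =>
    intro W' o h1 h2 h0
    cases W' with
    | nil =>
      exfalso
      rw [EZ_nil, EZ_cons] at h1
      have h3 := congrArg List.length h1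
      rw [List.length_append] at h3
      cases s with
      | lt e => simp only [szw, List.length_cons, List.length_nil] at h3; omega
      | bl i d f =>
        have := hb i
        simp only [szw, List.length_map, List.length_nil] at h3; omega
    | cons s' W' =>
      rw [EZ_cons, EZ_cons] at h1
      cases s with
      | lt e =>
        cases s' with
        | lt e' =>
          simp only [szw, List.singleton_append, List.cons.injEq] at h1
          rw [Sq_lt, Sq_lt] at h2
          rw [h1.1, ih W' (o + 1) h1.2 h2 h0]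
        | bl i d f =>
          exfalso
          have h3 : (o, d, f) ∈ Sq T v o (.lt e :: W) := by
            rw [h2, Sq_bl]; simp
          rw [Sq_lt] at h3
          have := Sq_ge T v W (o + 1) _ h3
          simp at this
      | bl i d f =>
        cases s' with
        | lt e' =>
          exfalso
          have h3 : (o, d, f) ∈ Sq T v o (.lt e' :: W') := by
            rw [← h2, Sq_bl]; simp
          rw [Sq_lt] at h3
          have := Sq_ge T v W' (o + 1) _ h3
          simp at this
        | bl i' d' f' =>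
          have hi : i = i' ∧ lab W = lab W' := by
            rw [K3YCNT.lab_cons_bl, K3YCNT.lab_cons_bl] at h0
            exact List.cons.inj h0
          obtain ⟨rfl, h0'⟩ := hi
          have hbi := hb i
          have h3 : (o, d, f) ∈ Sq T v o (.bl i d' f' :: W') := by
            rw [← h2, Sq_bl]; simp
          have h4 : (o, d, f) = (o, d', f') := by
            rw [Sq_bl, Finset.mem_insert] at h3
            rcases h3 with h3 | h3
            · exact h3
            · have := Sq_ge T v W' _ _ h3
              simp only at this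
              omega
          simp only [Prod.mk.injEq, true_and] at h4
          obtain ⟨rfl, rfl⟩ := h4
          have h5 := List.append_cancel_left h1
          have hn : ∀ X : List Sz, (o, d, f) ∉ Sq T v (o + (blk T (v i)).length) X := by
            intro X hX
            have := Sq_ge T v X _ _ hX
            simp only at this
            omega
          have h6 : Sq T v (o + (blk T (v i)).length) W =
              Sq T v (o + (blk T (v i)).length) W' := by
            have h7 := congrArg (fun S => Finset.erase S (o, d, f)) h2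
            simp only [Sq_bl] at h7
            rwa [Finset.erase_insert (hn W), Finset.erase_insert (hn W')] at h7
          rw [ih W' _ h5 h6 h0']

theorem card_perms (N : ℕ) : ((List.range N).permutations.toFinset).card ≤ N.factorial := by
  refine (List.toFinset_card_le _).trans ?_
  rw [List.length_permutations, List.length_range]

open KN.K3YMUL in
/-- the multiplicity -/
theorem mul {ks : ℕ → List V} (hk : ∀ i, NonInv (ks i)) {T L B : ℕ} {v : ℕ → List Dir}
    (hv : SmB L B v) (hs : ∀ i, Same (vl (.zm :: v i)) (ks i)) {N n : ℕ}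
    (hn : B + 2 * T + 3 ≤ n) (w : List Dir) :
    ((VZ T L v N n).filter (fun W => EZ T v W = w)).card ≤
      (2 ^ (2 * (B + 2 * T) * 36)) ^ N * N.factorial := by
  set D := B + 2 * T with hD
  set F := (VZ T L v N n).filter (fun W => EZ T v W = w) with hF
  rcases F.eq_empty_or_nonempty with he | ⟨W0, hW0⟩
  · rw [he]; simp
  · rw [hF, Finset.mem_filter, Y_mem_proof] at hW0
    obtain ⟨⟨hl0, hn0, hV0⟩, hw0⟩ := hW0
    have hl1 : B + 2 * T + 3 ≤ W0.length := by rw [hl0]; exact hn
    set J : Finset (ℕ × Dir × Dir) :=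
      ((Sp T v 0 W0).biUnion (fun q => Finset.Ico (q.1 + 1 - D) (q.1 + D))) ×ˢ
        (univ : Finset (Dir × Dir)) with hJ
    have h36 : (univ : Finset (Dir × Dir)).card = 36 := by
      rw [Finset.card_univ, Fintype.card_prod]
      rfl
    have hJc : J.card ≤ (2 * D * 36) * N := by
      rw [hJ, Finset.card_product, h36]
      have h8 : ((Sp T v 0 W0).biUnion (fun q => Finset.Ico (q.1 + 1 - D) (q.1 + D))).card ≤
          N * (2 * D) := by
        refine Finset.card_biUnion_le.trans ?_
        calc ∑ q ∈ Sp T v 0 W0, (Finset.Ico (q.1 + 1 - D) (q.1 + D)).card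
            ≤ ∑ _q ∈ Sp T v 0 W0, 2 * D := by
              refine Finset.sum_le_sum fun q _ => ?_
              rw [Nat.card_Ico]
              omega
          _ = (Sp T v 0 W0).card * (2 * D) := by rw [Finset.sum_const, smul_eq_mul]
          _ ≤ N * (2 * D) := by
              refine Nat.mul_le_mul_right _ ?_
              refine (Sp_card T v W0 0).trans ?_
              rw [hn0.length_eq, List.length_range]
      calc _ ≤ N * (2 * D) * 36 := Nat.mul_le_mul_right _ h8
        _ = (2 * D * 36) * N := by ring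
    have hle : F.card ≤ (J.powerset ×ˢ (List.range N).permutations.toFinset).card := by
      refine Finset.card_le_card_of_injOn (fun W => (Sq T v 0 W, lab W)) ?_ ?_
      · intro W hW
        rw [Finset.mem_coe, hF, Finset.mem_filter, Y_mem_proof] at hW
        obtain ⟨⟨_, hlab, hV⟩, hw⟩ := hW
        rw [Finset.mem_coe, Finset.mem_product]
        refine ⟨?_, ?_⟩
        · rw [Finset.mem_powerset]
          intro q hq
          simp only [Sq] at hq
          rw [Finset.mem_image] at hq
          obtain ⟨⟨m, i, d, f⟩, hm, rfl⟩ := hq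
          obtain ⟨A, B', h1, h2⟩ := Sp_mem T v W 0 m i d f hm
          obtain ⟨A0, B0, i0, d0, f0, h3, h4, h5⟩ :=
            e_over ks hk T L B v hv hs W0 W hV0 hV hl1 (by rw [hw0, hw]) A B' i d f h1
          rw [hJ, Finset.mem_product]
          refine ⟨?_, Finset.mem_univ _⟩
          rw [Finset.mem_biUnion]
          refine ⟨(0 + (EZ T v A0).length, i0, d0, f0), ?_, ?_⟩
          · rw [h3]; exact mem_Sp T v A0 B0 0 i0 d0 f0
          · simp only [Finset.mem_Ico]
            omega
        · rw [List.mem_toFinset, List.mem_permutations]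
          exact hlab
      · intro W hW W' hW' he
        rw [Finset.mem_coe, hF, Finset.mem_filter] at hW hW'
        simp only [Prod.mk.injEq] at he
        exact inj2 T v W W' 0 (by rw [hW.2, hW'.2]) he.1 he.2
    refine hle.trans ?_
    rw [Finset.card_product, Finset.card_powerset, ← pow_mul]
    exact Nat.mul_le_mul (Nat.pow_le_pow_right (by norm_num) hJc) (card_perms N)

end

end Pool.Agent.U216.MS.Lab
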