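import Pool.Agent.U216.MS.Lab

/-!
# Sums of many knots from a finite set: the lower bound
-/

set_option autoImplicit false

namespace Pool.Agent.U216.MS.Lab

open Finset Filter Topology KN
open scoped Classical

noncomputable section

theorem even_half : ∀ l : List ℕ, ∀ D : ℕ, (∀ x ∈ l, x % 2 = 0 ∧ x ≤ 2 * D) →
    ∃ r, l.sum = 2 * r ∧ r ≤ l.length * D
  | [], _, _ => ⟨0, rfl, by simp⟩
  | x :: l, D, h => by
    obtain ⟨h1, h2⟩ := h x (by simp)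
    obtain ⟨r, h3, h4⟩ := even_half l D (fun y hy => h y (by simp [hy]))
    refine ⟨x / 2 + r, ?_, ?_⟩
    · rw [List.sum_cons, h3]
      omega
    · rw [List.length_cons, Nat.succ_mul]
      omega

open KN.K3YALL in
/-- the count before the shift of the length -/
theorem low {S : Set (List V)} (hS : S.Finite) (hk : ∀ k ∈ S, NonInv k)
    (hex : ∀ k ∈ S, ∃ w, SAP w ∧ Same (vl w) k) :
    ∃ (c : ℝ) (D n₀ : ℕ), 0 < c ∧ ∀ (N : ℕ) (ks : ℕ → List V), (∀ i, ks i ∈ S) →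
      ∃ r : ℕ, r ≤ N * D ∧ ∀ n ≥ n₀, (N : ℝ) ≤ c * (n : ℝ) ^ (2 / 3 : ℝ) →
        ∀ l : List V, Sums ks N l →
          (c * (n : ℝ) ^ (2 / 3 : ℝ)) ^ N * a U n ≤
            (N.factorial : ℝ) * a (KT l) (n + 2 * r) := by
  have h1 : ∀ k : List V, ∃ (L : ℕ) (v : List Dir), k ∈ S → SmR L v ∧
      Same (vl (.zm :: v)) k := by
    intro k
    by_cases h : k ∈ S
    · obtain ⟨L, v, h2⟩ := T_vex_proof k (hex k h)
      exact ⟨L, v, fun _ => h2⟩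
    · exact ⟨0, [], fun h' => absurd h' h⟩
  choose Lf vf hf using h1
  obtain ⟨L, hLs⟩ : ∃ L : ℕ, ∀ k ∈ S, Lf k ≤ L :=
    ⟨hS.toFinset.sup Lf, fun k h => Finset.le_sup (f := Lf) (hS.mem_toFinset.2 h)⟩
  obtain ⟨B, hBs⟩ : ∃ B : ℕ, ∀ k ∈ S, (blk 0 (vf k)).length ≤ B :=
    ⟨hS.toFinset.sup (fun k => (blk 0 (vf k)).length),
      fun k h => Finset.le_sup (f := fun k => (blk 0 (vf k)).length) (hS.mem_toFinset.2 h)⟩
  obtain ⟨R, hR, hLR⟩ := d_LL (2 * L + 4) L le_rfl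
  obtain ⟨T, hT⟩ : ∃ T : ℕ, T = 2 * L + 4 := ⟨_, rfl⟩
  rw [← hT] at hLR
  obtain ⟨c, hc, n₀, h1⟩ := iter (B := B) hLR hR
  obtain ⟨C, hC⟩ : ∃ C : ℕ, C = 2 ^ (2 * (B + 2 * T) * 36) := ⟨_, rfl⟩
  have hC1 : 1 ≤ C := by
    rw [hC]
    exact Nat.one_le_two_pow
  have hmul : ∀ {ks : ℕ → List V} {v : ℕ → List Dir} {N n : ℕ}, (∀ i, NonInv (ks i)) →
      SmB L B v → (∀ i, Same (vl (.zm :: v i)) (ks i)) → B + 2 * T + 3 ≤ n →
      ∀ w, ((VZ T L v N n).filter (fun W => EZ T v W = w)).card ≤ C ^ N * N.factorial := by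
    intro ks v N n hkk hv hvk hn w
    rw [hC]
    exact mul hkk hv hvk hn w
  clear hC
  have hC0 : (1 : ℝ) ≤ C := by exact_mod_cast hC1
  have hCp : (0 : ℝ) < C := by linarith
  refine ⟨c / C, B + 2 * T, max n₀ (B + 2 * T + 3), div_pos hc hCp, ?_⟩
  intro N ks hks
  set v : ℕ → List Dir := fun i => vf (ks i) with hv0
  have hv : SmB L B v := by
    intro i
    refine ⟨SmR_mono ?_ (hf _ (hks i)).1, ?_⟩
    · exact hLs _ (hks i)
    · exact hBs _ (hks i)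
  have hvk : ∀ i, Same (vl (.zm :: v i)) (ks i) := fun i => (hf _ (hks i)).2
  have hkk : ∀ i, NonInv (ks i) := fun i => hk _ (hks i)
  set m : ℕ := ((List.range N).map (fun i => (blk T (v i)).length - 1)).sum with hm
  obtain ⟨r, hr, hr2⟩ : ∃ r, m = 2 * r ∧ r ≤ N * (B + 2 * T) := by
    obtain ⟨r, h3, h4⟩ := even_half ((List.range N).map (fun i => (blk T (v i)).length - 1))
      (B + 2 * T) (by
        intro x hx
        obtain ⟨i, -, rfl⟩ := List.mem_map.1 hx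
        have hlen : (blk T (v i)).length = 2 * (T + 1) + (v i).length := by
          unfold blk
          simp only [List.length_append, List.length_replicate]
          omega
        have hodd : ((v i).length + 1) % 2 = 0 := by
          have h2 := even_of_closed ((hv i).1.1.2.1)
          simpa using h2
        have hle := K3YMUL.blk_le hv T i
        omega)
    refine ⟨r, h3, ?_⟩
    rwa [List.length_map, List.length_range] at h4
  refine ⟨r, hr2, ?_⟩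
  intro n hn hN l hl
  have hn1 : n₀ ≤ n := le_trans (le_max_left _ _) hn
  have hn2 : B + 2 * T + 3 ≤ n := le_trans (le_max_right _ _) hn
  have hx0 : 0 ≤ (n : ℝ) ^ (2 / 3 : ℝ) := by positivity
  have hN' : (N : ℝ) ≤ c * (n : ℝ) ^ (2 / 3 : ℝ) := by
    refine hN.trans (mul_le_mul_of_nonneg_right ?_ hx0)
    rw [div_le_iff₀ hCp]
    nlinarith
  have h2 := h1 v hv n hn1 N hN'
  have h3 : (VZ T L v N n).card ≤ C ^ N * N.factorial * a (KT l) (n + m) := by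
    have h4 : (VZ T L v N n).card ≤ C ^ N * N.factorial * ((VZ T L v N n).image (EZ T v)).card := by
      apply Finset.card_le_mul_card_image
      intro w _
      exact hmul hkk hv hvk hn2 w
    refine h4.trans (Nat.mul_le_mul_left _ ?_)
    unfold a
    apply Finset.card_le_card
    intro w hw
    obtain ⟨W, hW, rfl⟩ := Finset.mem_image.1 hw
    obtain ⟨hW1, hW2, hW3⟩ := (Y_mem_proof T L v N n W).1 hW
    rw [mem_K]
    refine ⟨?_, hW3.ext, Or.inl ?_⟩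
    · rw [(e_bas T L B v hv W).2.2.1, hW1, hm, (hW2.map _).sum_eq]
    · exact e_sumu ks N _ _ (e_type ks T L B v hv hvk N W hW2 hW3) hl
  rw [hr] at h3
  have h3' : ((VZ T L v N n).card : ℝ) ≤
      (C : ℝ) ^ N * (N.factorial : ℝ) * a (KT l) (n + 2 * r) := by
    exact_mod_cast h3
  have h5 : (c / C * (n : ℝ) ^ (2 / 3 : ℝ)) ^ N * a U n =
      ((c * (n : ℝ) ^ (2 / 3 : ℝ)) ^ N * a U n) / (C : ℝ) ^ N := by
    rw [div_mul_eq_mul_div, div_pow, div_mul_eq_mul_div]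
  rw [h5, div_le_iff₀ (by positivity)]
  calc (c * (n : ℝ) ^ (2 / 3 : ℝ)) ^ N * a U n
      ≤ (VZ T L v N n).card := h2
    _ ≤ (C : ℝ) ^ N * (N.factorial : ℝ) * a (KT l) (n + 2 * r) := h3'
    _ = (N.factorial : ℝ) * a (KT l) (n + 2 * r) * (C : ℝ) ^ N := by ring

/-- Sums of many knots from a finite set of knots without inverse. -/
theorem many {S : Set (List V)} (hS : S.Finite) (hk : ∀ k ∈ S, NonInv k)
    (hex : ∀ k ∈ S, ∃ w, SAP w ∧ Same (vl w) k) :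
    ∃ c : ℝ, 0 < c ∧ ∀ᶠ j : ℕ in atTop, ∀ N : ℕ, (N : ℝ) ≤ c * (2 * j : ℝ) ^ (2 / 3 : ℝ) →
      ∀ ks : ℕ → List V, (∀ i, ks i ∈ S) → ∀ l : List V, Sums ks N l →
        (c * (2 * j : ℝ) ^ (2 / 3 : ℝ)) ^ N / (N.factorial : ℝ) * pq U (2 * j) ≤
          pq (KT l) (2 * j) := by
  obtain ⟨c, D, n₀, hc, h⟩ := low hS hk hex
  obtain ⟨B₀, hB₀, i0, hi0⟩ := K2SHIFT.ratio_U
  obtain ⟨B, hB1, hB⟩ : ∃ B : ℝ, 1 ≤ B ∧ ∀ i ≥ i0, (a U (2 * (i + 1)) : ℝ) ≤ B * a U (2 * i) := by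
    refine ⟨max B₀ 1, le_max_right _ _, fun i hi => (hi0 i hi).trans ?_⟩
    gcongr
    exact le_max_left _ _
  have hB0 : 0 < B := by linarith
  have hpow := fun r => K2SHIFT.pow_bound (fun i => (a U (2 * i) : ℝ)) B hB0.le i0 hB r
  set c' : ℝ := c / (2 * B ^ D) with hc'
  have hBD : 1 ≤ B ^ D := one_le_pow₀ hB1
  have hBD0 : 0 < B ^ D := by positivity
  have hc'0 : 0 < c' := by positivity
  have hc'c : c' ≤ c / 2 := by
    rw [hc', div_le_div_iff₀ (by positivity) (by norm_num)]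
    nlinarith
  refine ⟨c', hc'0, ?_⟩
  have hev : ∀ᶠ j : ℕ in atTop, c' * (2 * j : ℝ) ^ (2 / 3 : ℝ) * (2 * D) ≤ j := by
    have h1 : Tendsto (fun j : ℕ => (j : ℝ) ^ (1 / 3 : ℝ)) atTop atTop :=
      (tendsto_rpow_atTop (by norm_num)).comp tendsto_natCast_atTop_atTop
    filter_upwards [h1.eventually_ge_atTop (c' * (2 : ℝ) ^ (2 / 3 : ℝ) * (2 * D)),
      eventually_gt_atTop 0] with j hj hj0
    have hj0' : (0 : ℝ) < j := by exact_mod_cast hj0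
    rw [Real.mul_rpow (by norm_num) hj0'.le]
    calc c' * ((2 : ℝ) ^ (2 / 3 : ℝ) * (j : ℝ) ^ (2 / 3 : ℝ)) * (2 * D)
        = (c' * (2 : ℝ) ^ (2 / 3 : ℝ) * (2 * D)) * (j : ℝ) ^ (2 / 3 : ℝ) := by ring
      _ ≤ (j : ℝ) ^ (1 / 3 : ℝ) * (j : ℝ) ^ (2 / 3 : ℝ) := by gcongr
      _ = j := by
        rw [← Real.rpow_add hj0']
        norm_num
  filter_upwards [hev, eventually_ge_atTop (2 * (i0 + n₀) + 2)] with j hj hj1 N hN ks hks l hl
  obtain ⟨r, hr, hlow⟩ := h N ks hks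
  have hND : ((N * (2 * D) : ℕ) : ℝ) ≤ j := by
    push_cast
    refine le_trans ?_ hj
    gcongr
  have hND' : N * (2 * D) ≤ j := by exact_mod_cast hND
  have e0 : N * (2 * D) = N * D + N * D := by ring
  obtain ⟨i, rfl⟩ : ∃ i, j = i + r := ⟨j - r, by omega⟩
  have hi2 : i + r ≤ 2 * i := by omega
  have hii : i0 ≤ i := by omega
  have hin : n₀ ≤ 2 * i := by omega
  have hx : (2 * ((i + r : ℕ) : ℝ)) ^ (2 / 3 : ℝ) ≤ 2 * ((2 * i : ℕ) : ℝ) ^ (2 / 3 : ℝ) := by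
    have h1 : (2 * ((i + r : ℕ) : ℝ)) ≤ 2 * ((2 * i : ℕ) : ℝ) := by
      have : ((i + r : ℕ) : ℝ) ≤ ((2 * i : ℕ) : ℝ) := by exact_mod_cast hi2
      linarith
    refine (Real.rpow_le_rpow (by positivity) h1 (by norm_num)).trans ?_
    rw [Real.mul_rpow (by norm_num) (by positivity)]
    gcongr
    calc (2 : ℝ) ^ (2 / 3 : ℝ) ≤ (2 : ℝ) ^ (1 : ℝ) :=
          Real.rpow_le_rpow_of_exponent_le (by norm_num) (by norm_num)
      _ = 2 := Real.rpow_one _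
  have hN2 : (N : ℝ) ≤ c * ((2 * i : ℕ) : ℝ) ^ (2 / 3 : ℝ) := by
    calc (N : ℝ) ≤ c' * (2 * ((i + r : ℕ) : ℝ)) ^ (2 / 3 : ℝ) := hN
      _ ≤ c' * (2 * ((2 * i : ℕ) : ℝ) ^ (2 / 3 : ℝ)) := by gcongr
      _ ≤ (c / 2) * (2 * ((2 * i : ℕ) : ℝ) ^ (2 / 3 : ℝ)) := by gcongr
      _ = c * ((2 * i : ℕ) : ℝ) ^ (2 / 3 : ℝ) := by ring
  have h1 := hlow (2 * i) hin hN2 l hl
  have h2 := hpow r i hii
  have e1 : 2 * i + 2 * r = 2 * (i + r) := by ring
  rw [e1] at h1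
  have h2' : (a U (2 * (i + r)) : ℝ) ≤ B ^ (N * D) * a U (2 * i) := by
    refine h2.trans ?_
    gcongr
  have hpU : 0 ≤ (a U (2 * i) : ℝ) := Nat.cast_nonneg _
  have hfac : (0 : ℝ) < N.factorial := by exact_mod_cast Nat.factorial_pos N
  have key : (c' * (2 * ((i + r : ℕ) : ℝ)) ^ (2 / 3 : ℝ)) ^ N *
      (a U (2 * (i + r)) : ℝ) ≤ (N.factorial : ℝ) * a (KT l) (2 * (i + r)) := by
    calc (c' * (2 * ((i + r : ℕ) : ℝ)) ^ (2 / 3 : ℝ)) ^ N * (a U (2 * (i + r)) : ℝ)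
        ≤ (c' * (2 * ((2 * i : ℕ) : ℝ) ^ (2 / 3 : ℝ))) ^ N * (B ^ (N * D) * a U (2 * i)) := by
          gcongr
      _ = (c * ((2 * i : ℕ) : ℝ) ^ (2 / 3 : ℝ)) ^ N * a U (2 * i) := by
          have e2 : c' * (2 * ((2 * i : ℕ) : ℝ) ^ (2 / 3 : ℝ)) =
              c * ((2 * i : ℕ) : ℝ) ^ (2 / 3 : ℝ) / B ^ D := by
            rw [hc']
            field_simp
          rw [e2, div_pow, ← pow_mul, mul_comm D N]
          field_simp
      _ ≤ (N.factorial : ℝ) * a (KT l) (2 * (i + r)) := h1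
  rw [GEN.pn_eq, GEN.pn_eq, ← mul_div_assoc]
  gcongr
  rw [div_mul_eq_mul_div, div_le_iff₀ hfac]
  linarith

open KN.K3YALL in
/-- the same with a condition on the first `N` knots only -/
theorem many' {S : Set (List V)} (hS : S.Finite) (hk : ∀ k ∈ S, NonInv k)
    (hex : ∀ k ∈ S, ∃ w, SAP w ∧ Same (vl w) k) :
    ∃ c : ℝ, 0 < c ∧ ∀ᶠ j : ℕ in atTop, ∀ N : ℕ, (N : ℝ) ≤ c * (2 * j : ℝ) ^ (2 / 3 : ℝ) →
      ∀ ks : ℕ → List V, (∀ i < N, ks i ∈ S) →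
        (∃ w, SAP w ∧ Sums ks N (vl w)) ∧
        ∀ l : List V, Sums ks N l →
        (c * (2 * j : ℝ) ^ (2 / 3 : ℝ)) ^ N / (N.factorial : ℝ) * pq U (2 * j) ≤
          pq (KT l) (2 * j) := by
  obtain ⟨c, hc, h⟩ := many hS hk hex
  refine ⟨c, hc, ?_⟩
  filter_upwards [h] with j hj N hN ks hks
  refine ⟨e_sume ks N (fun i hi => hex _ (hks i hi)), fun l hl => ?_⟩
  rcases Nat.eq_zero_or_pos N with rfl | hN0
  · have h1 : (a U (2 * j) : ℝ) ≤ a (KT l) (2 * j) := by exact_mod_cast zero_case hl (2 * j)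
    rw [pow_zero, Nat.factorial_zero, Nat.cast_one, div_one, one_mul, GEN.pn_eq, GEN.pn_eq]
    gcongr
  · refine hj N hN (fun i => if i < N then ks i else ks 0) (fun i => ?_) l
      (Sums_congr (fun i hi => ?_) hl)
    · by_cases hi : i < N
      · simpa [hi] using hks i hi
      · simpa [hi] using hks 0 hN0
    · simp [hi]

/-- every summand multiplies the number of polygons by `M` -/
theorem powM {S : Set (List V)} (hS : S.Finite) (hk : ∀ k ∈ S, NonInv k)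
    (hex : ∀ k ∈ S, ∃ w, SAP w ∧ Same (vl w) k) (M : ℝ) (hM : 1 ≤ M) :
    ∃ c : ℝ, 0 < c ∧ ∀ᶠ j : ℕ in atTop, ∀ N : ℕ, (N : ℝ) ≤ c * (2 * j : ℝ) ^ (2 / 3 : ℝ) →
      ∀ ks : ℕ → List V, (∀ i < N, ks i ∈ S) → ∀ l : List V, Sums ks N l →
        M ^ N * pq U (2 * j) ≤ pq (KT l) (2 * j) := by
  obtain ⟨c, hc, h⟩ := many' hS hk hex
  have hM0 : 0 < M := by linarith
  refine ⟨c / M, by positivity, ?_⟩
  filter_upwards [h] with j hj N hN ks hks l hl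
  have hx0 : 0 ≤ (2 * j : ℝ) ^ (2 / 3 : ℝ) := by positivity
  have hN' : M * (N : ℝ) ≤ c * (2 * j : ℝ) ^ (2 / 3 : ℝ) := by
    rw [div_mul_eq_mul_div, le_div_iff₀ hM0] at hN
    linarith
  have hN1 : (N : ℝ) ≤ c * (2 * j : ℝ) ^ (2 / 3 : ℝ) := by
    have : (0 : ℝ) ≤ N := Nat.cast_nonneg N
    nlinarith
  refine le_trans ?_ ((hj N hN1 ks hks).2 l hl)
  have hpU : 0 ≤ pq U (2 * j) := by unfold pq; positivity
  refine mul_le_mul_of_nonneg_right ?_ hpU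
  have hfac : (0 : ℝ) < N.factorial := by exact_mod_cast Nat.factorial_pos N
  rw [le_div_iff₀ hfac]
  have h4 : (N.factorial : ℝ) ≤ (N : ℝ) ^ N := by exact_mod_cast Nat.factorial_le_pow N
  calc M ^ N * (N.factorial : ℝ) ≤ M ^ N * (N : ℝ) ^ N := by gcongr
    _ = (M * (N : ℝ)) ^ N := by rw [mul_pow]
    _ ≤ (c * (2 * j : ℝ) ^ (2 / 3 : ℝ)) ^ N := pow_le_pow_left₀ (by positivity) hN' _

end

end Pool.Agent.U216.MS.Lab
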